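import Mathlib

set_option autoImplicit false

namespace Pool.Agent.Results.MP_2e7467_an.Gas

open Filter Topology

/-- `x` is a solution of the recurrence, with indices shifted by `k`: the initial values are
`x 0, …, x k`. -/
def IsSol (k : ℕ) (A : ℝ) (β B : Fin (k + 1) → ℝ) (x : ℕ → ℝ) : Prop :=
  (∀ j ≤ k, 0 ≤ x j) ∧
    ∀ n, x (n + k + 1) = (∑ i, β i * x (n + k - i)) / (A + ∑ i, B i * x (n + k - i))

/-- `x` has prime period `p` -/
def PrimePeriod (x : ℕ → ℝ) (p : ℕ) : Prop :=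
  0 < p ∧ (∀ n, x (n + p) = x n) ∧ ∀ q, 0 < q → (∀ n, x (n + q) = x n) → p ≤ q

section
variable {k : ℕ} {A : ℝ} {β B : Fin (k + 1) → ℝ}

lemma bounds (hA : 0 < A) (hβ : ∀ i, 0 ≤ β i) (hB : ∀ i, 0 ≤ B i) (hAβ : A = ∑ i, β i)
    {x : ℕ → ℝ} (hx : IsSol k A β B x) {M : ℝ} (hM : ∀ j ≤ k, x j ≤ M) (n : ℕ) :
    0 ≤ x n ∧ x n ≤ M := by
  induction n using Nat.strong_induction_on with
  | _ n ih =>
    by_cases hn : n ≤ k
    · exact ⟨hx.1 n hn, hM n hn⟩
    obtain ⟨m, rfl⟩ : ∃ m, n = m + k + 1 := ⟨n - k - 1, by omega⟩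
    have h1 : ∀ i : Fin (k + 1), 0 ≤ x (m + k - i) ∧ x (m + k - i) ≤ M := fun i => ih _ (by omega)
    have hM0 : 0 ≤ M := (h1 0).1.trans (h1 0).2
    have h2 : 0 ≤ ∑ i, B i * x (m + k - i) :=
      Finset.sum_nonneg fun i _ => mul_nonneg (hB i) (h1 i).1
    have h3 : 0 ≤ ∑ i, β i * x (m + k - i) :=
      Finset.sum_nonneg fun i _ => mul_nonneg (hβ i) (h1 i).1
    have h4 : ∑ i, β i * x (m + k - i) ≤ A * M := by
      rw [hAβ, Finset.sum_mul]
      exact Finset.sum_le_sum fun i _ => mul_le_mul_of_nonneg_left (h1 i).2 (hβ i)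
    rw [hx.2 m]
    refine ⟨by positivity, ?_⟩
    rw [div_le_iff₀ (by positivity)]
    nlinarith

/-- the numerical semigroup generated by the delays of the numerator -/
inductive R (β : Fin (k + 1) → ℝ) : ℕ → Prop
  | zero : R β 0
  | step (m : ℕ) (i : Fin (k + 1)) : R β m → β i ≠ 0 → R β (m + 1 + i)

lemma R.add {a b : ℕ} (ha : R β a) (hb : R β b) : R β (a + b) := by
  induction hb with
  | zero => exact ha
  | step m i _ hi ih =>
    have := R.step _ i ih hi
    rwa [show a + m + 1 + i = a + (m + 1 + i) by omega] at this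

/-- the group it generates -/
def H (β : Fin (k + 1) → ℝ) (z : ℤ) : Prop := ∃ a b : ℕ, R β a ∧ R β b ∧ z = a - b

lemma H.add {z w : ℤ} (hz : H β z) (hw : H β w) : H β (z + w) := by
  obtain ⟨a, b, ha, hb, rfl⟩ := hz
  obtain ⟨c, d, hc, hd, rfl⟩ := hw
  exact ⟨a + c, b + d, ha.add hc, hb.add hd, by push_cast; ring⟩

lemma H.neg {z : ℤ} (hz : H β z) : H β (-z) := by
  obtain ⟨a, b, ha, hb, rfl⟩ := hz
  exact ⟨b, a, hb, ha, by ring⟩

lemma H.shift {z w : ℤ} (hw : H β w) : H β (z + w) ↔ H β z :=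
  ⟨fun h => by simpa using h.add hw.neg, fun h => h.add hw⟩

lemma H_gen {i : Fin (k + 1)} (hi : β i ≠ 0) : H β (((i : ℕ) : ℤ) + 1) :=
  ⟨0 + 1 + i, 0, R.step 0 i R.zero hi, R.zero, by push_cast; ring⟩

open Classical in
lemma periodic (hA : 0 < A) (hAβ : A = ∑ i, β i) (hsB : 0 < ∑ i, B i)
    (h : ∀ j, B j ≠ 0 → ¬ H β (((j : ℕ) : ℤ) + 1)) :
    ∃ x, IsSol k A β B x ∧ ∃ p, 2 ≤ p ∧ PrimePeriod x p := by
  let x : ℕ → ℝ := fun n => if H β (n : ℤ) then 1 else 0
  have hx0 : ∀ n, 0 ≤ x n := fun n => by simp only [x]; split_ifs <;> norm_num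
  have cast : ∀ (n : ℕ) (i : Fin (k + 1)),
      ((n + k + 1 : ℕ) : ℤ) = ((n + k - i : ℕ) : ℤ) + (((i : ℕ) : ℤ) + 1) := by
    intro n i
    have := i.2
    omega
  obtain ⟨i0, -, hi0⟩ := Finset.exists_ne_zero_of_sum_ne_zero (hAβ ▸ hA.ne' : ∑ i, β i ≠ 0)
  obtain ⟨j0, -, hj0⟩ := Finset.exists_ne_zero_of_sum_ne_zero hsB.ne'
  have hper : ∃ q, 0 < q ∧ ∀ n, x (n + q) = x n := by
    refine ⟨i0 + 1, by omega, fun n => ?_⟩
    simp only [x]
    have : H β ((n + (i0 + 1) : ℕ) : ℤ) ↔ H β n := by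
      push_cast; exact H.shift (H_gen hi0)
    simp only [this]
  refine ⟨x, ⟨fun j _ => hx0 j, fun n => ?_⟩, Nat.find hper, ?_, (Nat.find_spec hper).1,
    (Nat.find_spec hper).2, fun q h1 h2 => Nat.find_min' hper ⟨h1, h2⟩⟩
  · have num : ∑ i, β i * x (n + k - i) = A * x (n + k + 1) := by
      rw [hAβ, Finset.sum_mul]
      refine Finset.sum_congr rfl fun i _ => ?_
      by_cases hi : β i = 0
      · simp [hi]
      · simp only [x]
        have : H β ((n + k + 1 : ℕ) : ℤ) ↔ H β ((n + k - i : ℕ) : ℤ) := by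
          rw [cast n i]; exact H.shift (H_gen hi)
        simp only [this]
    rw [num]
    by_cases hN : H β ((n + k + 1 : ℕ) : ℤ)
    · have den : ∑ i, B i * x (n + k - i) = 0 := by
        refine Finset.sum_eq_zero fun j _ => ?_
        by_cases hj : B j = 0
        · simp [hj]
        · have : ¬ H β ((n + k - j : ℕ) : ℤ) := by
            intro h2
            apply h j hj
            rw [cast n j, add_comm] at hN
            exact (H.shift h2).1 hN
          simp only [x, if_neg this, mul_zero]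
      rw [den, add_zero, mul_div_cancel_left₀ _ hA.ne']
    · have : x (n + k + 1) = 0 := by simp only [x, if_neg hN]
      rw [this]; simp
  · by_contra hlt
    obtain ⟨h1, h2⟩ := Nat.find_spec hper
    have e : Nat.find hper = 1 := by omega
    rw [e] at h2
    have h3 : ∀ n, x n = x 0 := by
      intro n
      induction n with
      | zero => rfl
      | succ n ih => rw [h2, ih]
    have h4 := h3 (j0 + 1)
    have h5 : H β ((0 : ℕ) : ℤ) := ⟨0, 0, R.zero, R.zero, by simp⟩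
    have h6 : ¬ H β ((j0 + 1 : ℕ) : ℤ) := by push_cast; exact h j0 hj0
    simp only [x, if_pos h5, if_neg h6] at h4
    norm_num at h4

lemma attract (hA : 0 < A) (hβ : ∀ i, 0 ≤ β i) (hB : ∀ i, 0 ≤ B i) (hAβ : A = ∑ i, β i)
    {j : Fin (k + 1)} (hj : B j ≠ 0) (hH : H β (((j : ℕ) : ℤ) + 1))
    {x : ℕ → ℝ} (hx : IsSol k A β B x) : Tendsto x atTop (𝓝 0) := by
  obtain ⟨M, hM⟩ : ∃ M, ∀ j ≤ k, x j ≤ M :=
    ⟨∑ i ∈ Finset.range (k + 1), x i, fun j hj =>
      Finset.single_le_sum (f := x) (fun i hi => hx.1 i (by simp at hi; omega))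
        (Finset.mem_range.2 (by omega))⟩
  have hb := bounds hA hβ hB hAβ hx hM
  have b1 : IsBoundedUnder (· ≤ ·) atTop x := isBoundedUnder_of ⟨M, fun n => (hb n).2⟩
  have b2 : IsBoundedUnder (· ≥ ·) atTop x := isBoundedUnder_of ⟨0, fun n => (hb n).1⟩
  set L := limsup x atTop with hL
  have ev : ∀ ε, 0 < ε → ∀ᶠ n in atTop, x n < L + ε := fun ε hε =>
    eventually_lt_of_limsup_lt (by linarith) b1
  obtain ⟨U, hU, hUx⟩ := mapClusterPt_iff_ultrafilter.1
    (MapClusterPt.limsup (f := atTop) (u := x) b2.isCoboundedUnder_le b1)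
  have ex : ∀ m : ℕ, ∃ y ∈ Set.Icc 0 M, Tendsto (fun n => x (n - m)) U (𝓝 y) := fun m =>
    isCompact_Icc.ultrafilter_le_nhds (U.map fun n => x (n - m))
      (by
        rw [Ultrafilter.coe_map, le_principal_iff, mem_map]
        exact univ_mem' fun n => hb _)
  choose y hy0 hy using ex
  have yL : ∀ m, y m ≤ L := by
    intro m
    refine le_of_forall_pos_le_add fun ε hε => le_of_tendsto (hy m) ?_
    exact (((tendsto_sub_atTop_nat m).eventually (ev ε hε)).filter_mono hU).mono fun n h => h.le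
  have y0 : y 0 = L := tendsto_nhds_unique (hy 0) hUx
  have recur : ∀ m, y m * (A + ∑ i, B i * y (m + 1 + i)) = ∑ i, β i * y (m + 1 + i) := by
    intro m
    have t1 : Tendsto (fun n => x (n - m) * (A + ∑ i, B i * x (n - (m + 1 + i)))) U
        (𝓝 (y m * (A + ∑ i, B i * y (m + 1 + i)))) :=
      (hy m).mul (tendsto_const_nhds.add (tendsto_finsetSum _ fun i _ => (hy _).const_mul _))
    have t2 : Tendsto (fun n => ∑ i, β i * x (n - (m + 1 + i))) U
        (𝓝 (∑ i, β i * y (m + 1 + i))) := tendsto_finsetSum _ fun i _ => (hy _).const_mul _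
    refine tendsto_nhds_unique (t1.congr' ?_) t2
    refine ((eventually_ge_atTop (m + k + 1)).filter_mono hU).mono fun n hn => ?_
    obtain ⟨r, rfl⟩ : ∃ r, n = r + k + 1 + m := ⟨n - (m + k + 1), by omega⟩
    have e : ∀ i : Fin (k + 1), r + k + 1 + m - (m + 1 + i) = r + k - i := fun i => by omega
    simp only [e, Nat.add_sub_cancel]
    have h2 : 0 ≤ ∑ i, B i * x (r + k - i) :=
      Finset.sum_nonneg fun i _ => mul_nonneg (hB i) (hb _).1
    rw [hx.2 r, div_mul_cancel₀ _ (by positivity)]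
  have key : ∀ m, y m = L → (∀ i, β i * (L - y (m + 1 + i)) = 0) ∧
      ∀ i, L * (B i * y (m + 1 + i)) = 0 := by
    intro m hm
    have hL0 : 0 ≤ L := hm ▸ (hy0 m).1
    have p1 : ∀ i ∈ Finset.univ, 0 ≤ β i * (L - y (m + 1 + i)) := fun i _ =>
      mul_nonneg (hβ i) (sub_nonneg.2 (yL _))
    have p2 : ∀ i ∈ Finset.univ, 0 ≤ L * (B i * y (m + 1 + i)) := fun i _ =>
      mul_nonneg hL0 (mul_nonneg (hB i) (hy0 _).1)
    have s1 := Finset.sum_nonneg p1
    have s2 := Finset.sum_nonneg p2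
    have e := recur m
    have e1 : ∑ i, β i * (L - y (m + 1 + i)) = A * L - ∑ i, β i * y (m + 1 + i) := by
      rw [hAβ, Finset.sum_mul, ← Finset.sum_sub_distrib]
      exact Finset.sum_congr rfl fun i _ => by ring
    have e2 : ∑ i, L * (B i * y (m + 1 + i)) = L * ∑ i, B i * y (m + 1 + i) := by
      rw [Finset.mul_sum]
    rw [hm] at e
    exact ⟨fun i => (Finset.sum_eq_zero_iff_of_nonneg p1).1 (by nlinarith) i (Finset.mem_univ _),
      fun i => (Finset.sum_eq_zero_iff_of_nonneg p2).1 (by nlinarith) i (Finset.mem_univ _)⟩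
  have hR : ∀ m, R β m → y m = L := by
    intro m hm
    induction hm with
    | zero => exact y0
    | step m i _ hi ih =>
      have := ((key m ih).1 i)
      rcases mul_eq_zero.1 this with h | h
      · exact absurd h hi
      · linarith
  have L0 : L = 0 := by
    obtain ⟨a, b, ha, hb', e⟩ := hH
    have e' : a = b + 1 + j := by omega
    have h1 := (key b (hR b hb')).2 j
    rw [← e', hR a ha] at h1
    rcases mul_eq_zero.1 h1 with h | h
    · exact h
    · exact (mul_eq_zero.1 h).resolve_left hj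
  rw [tendsto_order]
  exact ⟨fun a ha => Eventually.of_forall fun n => ha.trans_le (hb n).1,
    fun a ha => by simpa [L0] using ev a ha⟩

end

theorem result (k : ℕ) (A : ℝ) (β B : Fin (k + 1) → ℝ) (hA : 0 < A)
    (hβ : ∀ i, 0 ≤ β i) (hB : ∀ i, 0 ≤ B i) (_hsβ : 0 < ∑ i, β i) (hsB : 0 < ∑ i, B i)
    (hAβ : A = ∑ i, β i)
    (hper : ¬ ∃ x, IsSol k A β B x ∧ ∃ p, 2 ≤ p ∧ PrimePeriod x p) :
    (∀ ε : ℝ, 0 < ε → ∃ δ : ℝ, 0 < δ ∧
      ∀ x, IsSol k A β B x → (∀ j ≤ k, x j < δ) → ∀ n, x n < ε) ∧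
    ∀ x, IsSol k A β B x → Tendsto x atTop (𝓝 0) := by
  constructor
  · intro ε hε
    refine ⟨ε / 2, by positivity, fun x hx h n => ?_⟩
    have := (bounds hA hβ hB hAβ hx (fun j hj => (h j hj).le) n).2
    linarith
  · intro x hx
    by_contra hn
    exact hper (periodic hA hAβ hsB fun j hj hH => hn (attract hA hβ hB hAβ hj hH hx))

end Pool.Agent.Results.MP_2e7467_an.Gas
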